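import Pool.Agent.NTW.StmtsD

/-!
# Squad NTW, row NTF (helper25): Theorem NT
-/

set_option autoImplicit false

open Matrix Filter Topology

namespace Pool.Agent.NTW.H25

open Pool.Agent.PFS Pool.Agent.PFJ Pool.Agent.NTS Pool.Agent.NTW

theorem ntf (exc : ExcStmt) (tau : TauStmt) (pzw : PzwStmt) : NtfStmt := by
  intro n C Γ hCC k hk hmax hex hnit
  obtain ⟨w0, hw0⟩ := hex
  obtain ⟨c, hsym, htwo, ⟨w, hw⟩, hdim⟩ := exc n C Γ hCC (k + 1) w0 hw0
  obtain ⟨τ, hτ⟩ := tau (k + 1) c hsym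
  have hD : Dom C Γ (k + 1) c τ :=
    { toCC := hCC, toTau := hτ, three := by omega, maxc := hmax, sym := hsym, two := htwo,
      dim := hdim }
  obtain ⟨w', hw', -, hc⟩ := pzw n C Γ k c τ hD hnit w hw
  exact ⟨w', hw'.pes, hc⟩

end Pool.Agent.NTW.H25
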