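import Pool.Agent.NTW.StmtsA

/-!
# Squad NTW, row TBX (helper25): basic facts on the family `TT`
-/

set_option autoImplicit false

open Matrix Filter Topology

namespace Pool.Agent.NTW.H25

open Pool.Agent.PFS Pool.Agent.PFJ Pool.Agent.NTS Pool.Agent.NTW

theorem rst_perm {n K : ℕ} (w : Fin K → V n) (π : Equiv.Perm (Fin K)) (i j : Fin K) :
    rst (fun m => w (π m)) i j = rst w (π i) (π j) := by
  unfold rst
  refine Finset.sum_equiv π ?_ (fun _ _ => rfl)
  intro m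
  simp

theorem tbx (pbf : PbfStmt) (pac : PacStmt) : TbxStmt := by
  intro n C Γ K c τ hD w hw
  have hCC : CC C Γ := hD.toCC
  have hP : PCone C := hCC.toPCone
  obtain ⟨elm1, elm2, elm3, -, -⟩ := Pool.Agent.PFS.H60.elm n C Γ hCC (Fin K) w hw.pes
  refine ⟨?_, ?_, ?_, ?_⟩
  · intro i j hij
    obtain ⟨L, hL, hdim⟩ := hw.pb i j hij
    have h2 := ((pbf n C hP K w hw.pes.1 i j hij).1 L hL).2.1
    have h3 := hD.dim w hw i j hij
    have h4 : L = Fs C (w i) (w j) :=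
      Submodule.eq_of_le_of_finrank_le h2 (by rw [h3]; exact hdim)
    rw [← h4]
    exact hL
  · intro r hr
    refine ⟨elm1 r hr, fun i j hij => ?_⟩
    obtain ⟨L, hL, hdim⟩ := hw.pb i j hij
    exact ⟨L, ((pbf n C hP K w hw.pes.1 i j hij).1 L hL).2.2.2.2.1 r hr, hdim⟩
  · intro g hg s hs
    refine ⟨elm2 g hg s hs, fun i j hij => ?_⟩
    obtain ⟨L, hL, hdim⟩ := hw.pb i j hij
    refine ⟨img g L, (pac n C Γ hCC g hg s hs).2.1 K w i j L hL, ?_⟩
    rw [(Pool.Agent.PFJ.H32.img n).1 g L]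
    exact hdim
  · intro π hπ
    refine ⟨elm3 (Fin K) π, fun i j hij => ?_⟩
    obtain ⟨L, hL, hdim⟩ := hw.pb (π i) (π j) (fun h => hij (π.injective h))
    refine ⟨L, ⟨hL.left, hL.right, ?_⟩, ?_⟩
    · intro v hv hvb
      rw [rst_perm] at hvb
      exact hL.box v hv hvb
    · rw [← hπ i j]
      exact hdim

end Pool.Agent.NTW.H25
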